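import Pool.Agent.TH894.NJ5

/-!
# The images of Galois for almost all elliptic curves, whose coefficients arise from arbitrary integers by changing few digits

Let `b ≥ 2` and `ε > 0`.  Take any two integers `N₁`, `N₂` with `K₁`, `K₂` digits in base `b`, prescribe for every position a
new digit, choose `r₁` (`r₂`) positions and put the new digits there.  Let `A`, `B` be the numbers obtained, or more generally the
images of these numbers under fixed nonconstant linear functions.  Then for all but a proportion `ε` of the choices of the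
positions `E : y² = x³ + Ax + B` is an elliptic curve without complex multiplication (its `j`-invariant is not an integer), and
for **all** prime numbers `l ≥ 3` the image of the Galois group in the automorphisms of `E[l]` contains a unipotent element of
order `l` (so it is not contained in the normaliser of a Cartan subgroup), and it contains `SL₂(𝔽_l)` or `E` has a rational
isogeny of degree `l`.

Proof.  Let the prime `q ≥ 5`, `q ≠ l`, divide `4A³ + 27B²` exactly once, and let `L` be the field generated by `E[l]`, with a place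
above `q`.  Using the local computations of the libraries `W275/FM` and `W275/FML` we show: for every `τ` in the inertia group and
every `P ∈ E[l]` the point `τP - P` has nonsingular reduction and is fixed by the inertia group.  So the inertia group acts by
unipotent automorphisms; it does not act trivially, since otherwise all points of `E[l]` would have nonsingular reduction and their
number would be at most `l`.  If `E` has no rational isogeny of degree `l`, then conjugates of such a transvection generate
`SL₂(𝔽_l)`.  To find two such primes `q` for almost all choices, the second moment over the choices of the number of the primes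
`y < q ≤ y ^ m` with this property is computed by Fourier expansion modulo `∏ q²`.
-/

set_option autoImplicit false

namespace Pool.Agent.Results.MP_cda23d_nt.FewDigitCurves

open Finset
open scoped Classical

/-- The curve `y² = x³ + Ax + B` over `ℚ`. -/
def curve (A B : ℤ) : WeierstrassCurve ℚ := ⟨0, 0, 0, A, B⟩

/-- The group of its points over the algebraic closure of `ℚ`. -/
abbrev Points (A B : ℤ) : Type := ((curve A B).baseChange (AlgebraicClosure ℚ)).toAffine.Point

/-- The action of an automorphism `σ` of the algebraic closure on the points. -/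
noncomputable def galois (A B : ℤ) (σ : AlgebraicClosure ℚ ≃ₐ[ℚ] AlgebraicClosure ℚ) :
    Points A B →+ Points A B :=
  WeierstrassCurve.Affine.Point.map
    (σ : AlgebraicClosure ℚ →ₐ[ℚ] AlgebraicClosure ℚ)

/-- `σ` acts on the `l`-torsion by an automorphism `φ ≠ 1` with `(φ - 1) ^ 2 = 0`. -/
def Unipotent (l : ℕ) (A B : ℤ) (σ : AlgebraicClosure ℚ ≃ₐ[ℚ] AlgebraicClosure ℚ) : Prop :=
  (∃ P : Points A B, l • P = 0 ∧ galois A B σ P ≠ P) ∧
    ∀ P : Points A B, l • P = 0 → galois A B σ (galois A B σ P - P) = galois A B σ P - P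

/-- A subgroup of order `l` of the points (generated by `P`) is stable under the Galois group: the curve has a
rational isogeny of degree `l`. -/
def HasIsogeny (l : ℕ) (A B : ℤ) : Prop :=
  ∃ P : Points A B, l • P = 0 ∧ P ≠ 0 ∧ ∀ σ : AlgebraicClosure ℚ ≃ₐ[ℚ] AlgebraicClosure ℚ, ∃ j : ℤ, galois A B σ P = j • P

/-- `P`, `Q` are independent modulo `l`: a basis of the `l`-torsion, if they belong to it. -/
def Independent (l : ℕ) {A B : ℤ} (P Q : Points A B) : Prop :=
  ∀ m n : ℤ, m • P + n • Q = 0 → (l : ℤ) ∣ m ∧ (l : ℤ) ∣ n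

/-- The image of the Galois group in the automorphisms of the `l`-torsion contains `SL₂(𝔽_l)`: for every basis `P`, `Q` and every
matrix with determinant `1` modulo `l`. -/
def ContainsSL2 (l : ℕ) (A B : ℤ) : Prop :=
  ∀ P Q : Points A B, l • P = 0 → l • Q = 0 → Independent l P Q →
    ∀ α β γ δ : ℤ, (l : ℤ) ∣ α * δ - β * γ - 1 →
      ∃ σ : AlgebraicClosure ℚ ≃ₐ[ℚ] AlgebraicClosure ℚ,
        galois A B σ P = α • P + γ • Q ∧ galois A B σ Q = β • P + δ • Q

/-- `y² = x³ + Ax + B` is an elliptic curve, its `j`-invariant `6912 A³ / (4A³ + 27B²)` is not an integer (so it has no complex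
multiplication), and for all primes `l ≥ 3` the image of Galois in the automorphisms of the `l`-torsion contains a nontrivial
unipotent element, and it contains `SL₂(𝔽_l)` or there is a rational isogeny of degree `l`. -/
def BigImages (A B : ℤ) : Prop :=
  4 * A ^ 3 + 27 * B ^ 2 ≠ 0 ∧ (∀ k : ℤ, 6912 * A ^ 3 ≠ k * (4 * A ^ 3 + 27 * B ^ 2)) ∧
    ∀ l : ℕ, l.Prime → 3 ≤ l → (∃ σ, Unipotent l A B σ) ∧ (HasIsogeny l A B ∨ ContainsSL2 l A B)

/-- The digit number `i` (counted from the right, beginning with `0`) of `n` in base `b`. -/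
def digit (b i n : ℕ) : ℕ := n / b ^ i % b

/-- The number which arises from the number `N` with at most `K` digits in base `b`, if for every `i ∈ S`
the digit number `i` is replaced by `f i`. -/
def change (b K N : ℕ) (f : ℕ → ℕ) (S : Finset ℕ) : ℕ :=
  ∑ i ∈ range K, (if i ∈ S then f i else digit b i N) * b ^ i

/-- The initial data: a number `N`, the number `K` of its digits, the new digits `f`, the number `r` of changes. -/
structure Data where
  K : ℕ
  r : ℕ
  N : ℕ
  f : ℕ → ℕ

/-- `N` has at most `K` digits, `2 r ≤ K`, the prescribed new digits are different from the old ones. -/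
def Data.Ok (b : ℕ) (D : Data) : Prop :=
  2 * D.r ≤ D.K ∧ D.N < b ^ D.K ∧ ∀ j, D.f j < b ∧ D.f j ≠ digit b j D.N

/-- The choices of `r` of the `K` positions. -/
def Data.choices (D : Data) : Finset (Finset ℕ) := powersetCard D.r (range D.K)

/-- The number after the changes at the positions in `S`. -/
def Data.value (b : ℕ) (D : Data) (S : Finset ℕ) : ℕ := change b D.K D.N D.f S

/-- The number of the pairs of choices for which the values do not have the property `E`. -/
noncomputable def exceptions (b : ℕ) (D₁ D₂ : Data) (E : ℕ → ℕ → Prop) : ℕ :=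
  ((D₁.choices ×ˢ D₂.choices).filter (fun S => ¬ E (D₁.value b S.1) (D₂.value b S.2))).card

lemma choices_card (D : Data) : (D.choices.card : ℝ) = ((D.K).choose D.r : ℝ) := by
  unfold Data.choices
  rw [card_powersetCard, card_range]

/-- Two exact prime divisors suffice. -/
lemma big_of_two {y : ℕ} {A B : ℤ} (h : Pool.Agent.TH894.NJ.Two y A B) : BigImages A B := by
  refine ⟨?_, ?_, ?_⟩
  · obtain ⟨q, hE, -⟩ := h.choose 0
    intro h0
    apply hE.2.2.2
    have : Pool.Agent.W275.FM.dsc A B = 0 := h0
    rw [this]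
    exact dvd_zero _
  · obtain ⟨q, ⟨hq, hq5, hqD, hqD2⟩, -⟩ := h.choose 0
    exact Pool.Agent.TH894.NJ.j_not_int hq hq5 hqD hqD2
  · intro l hl hl3
    obtain ⟨q, hE, hql⟩ := h.choose l
    obtain ⟨⟨σ, _, h1⟩, h2⟩ := Pool.Agent.TH894.NJ.image A B q l hE hl hl3 hql ⊤
      (fun σ => ⟨1, one_pos, by omega, Subgroup.mem_top _⟩)
    refine ⟨⟨σ, h1⟩, ?_⟩
    rcases h2 with ⟨P, hP, hP0, hj⟩ | h2
    · exact Or.inl ⟨P, hP, hP0, fun σ => hj σ (Subgroup.mem_top _)⟩
    · refine Or.inr fun P Q hP hQ hI α β γ δ hdet => ?_
      obtain ⟨σ, _, h3⟩ := h2 P Q hP hQ hI α β γ δ hdet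
      exact ⟨σ, h3⟩

/-- **The images of Galois for curves with few changed digits.**  For all bases `b ≥ 2` and all `ε > 0` there are `c > 0` and `y₀`
such that for all `y ≥ y₀`, all linear functions `un + u₀`, `vn + v₀` with `0 < |u|, |v| ≤ y` and all data
`D₁`, `D₂` with `r₁, r₂ ≥ (log y) / c`: for all but a proportion `ε` of the choices of the
positions the curve `y² = x³ + Ax + B` with `A = u n₁ + u₀`, `B = v n₂ + v₀`, where `n₁`, `n₂` arise from `N₁`, `N₂` by the changes
at the chosen positions, is an elliptic curve with a `j`-invariant which is not an integer, and for all primes `l ≥ 3` the image of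
Galois in the automorphisms of its `l`-torsion contains a nontrivial unipotent element, and it contains `SL₂(𝔽_l)` or the curve has
a rational isogeny of degree `l`. -/
theorem result (b : ℕ) (hb : 2 ≤ b) (ε : ℝ) (hε : 0 < ε) : ∃ c : ℝ, 0 < c ∧ ∃ y₀ : ℕ, ∀ y : ℕ, y₀ ≤ y →
    ∀ u v u₀ v₀ : ℤ, u ≠ 0 → v ≠ 0 → |u| ≤ y → |v| ≤ y →
    ∀ D₁ D₂ : Data, D₁.Ok b → D₂.Ok b → Real.log y ≤ c * D₁.r → Real.log y ≤ c * D₂.r →
      (exceptions b D₁ D₂ (fun n₁ n₂ => BigImages (u * n₁ + u₀) (v * n₂ + v₀)) : ℝ) ≤
        ε * ((D₁.choices.card : ℝ) * D₂.choices.card) := by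
  obtain ⟨c, hc, y₀, h⟩ := Pool.Agent.TH894.NJ.two_primes b hb ε hε
  refine ⟨c, hc, y₀, fun y hy u v u₀ v₀ hu hv huy hvy D₁ D₂ h₁ h₂ hr₁ hr₂ => ?_⟩
  have h3 := h y hy u v u₀ v₀ hu hv huy hvy ![D₁.r, D₂.r] ![D₁.K, D₂.K]
    (by intro i; fin_cases i; exacts [h₁.1, h₂.1]) (by intro i; fin_cases i; exacts [hr₁, hr₂])
    ![D₁.N, D₂.N] (by intro i; fin_cases i; exacts [h₁.2.1, h₂.2.1]) ![D₁.f, D₂.f]
    (by intro i j; fin_cases i; exacts [h₁.2.2 j, h₂.2.2 j])
  rw [Fin.prod_univ_two] at h3
  rw [choices_card, choices_card]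
  refine le_trans ?_ h3
  unfold exceptions
  apply Nat.cast_le.2
  refine card_le_card_of_injOn (fun w => ![w.1, w.2]) ?_ ?_
  · rintro ⟨S₁, S₂⟩ hS
    rw [mem_coe, mem_filter, mem_product] at hS
    rw [mem_coe, mem_filter, Fintype.mem_piFinset]
    refine ⟨?_, ?_⟩
    · intro i
      fin_cases i
      exacts [hS.1.1, hS.1.2]
    · intro hR
      exact hS.2 (big_of_two hR)
  · rintro ⟨S₁, S₂⟩ _ ⟨S₁', S₂'⟩ _ hSS
    have e1 : S₁ = S₁' := congrFun hSS 0
    have e2 : S₂ = S₂' := congrFun hSS 1
    rw [e1, e2]

end Pool.Agent.Results.MP_cda23d_nt.FewDigitCurves
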