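import Pool.Agent.TH125.Tor.Union
import Pool.Agent.TH125.Tor.Duke
import Pool.Prelude.Def_F_7deccdcd

/-!
# Serre's uniformity question outside a sparse set of `j`-invariants

* For every `ε > 0`, for all but `O(T ^ ε)` of the about `T ^ 2` rational numbers `j` of height at
  most `T`, the mod `p` representation of every elliptic curve over `ℚ` without complex
  multiplication with `j`-invariant `j` is surjective for every prime `p > 37`.
* For every `ε > 0`, for all but `O(X ^ (1 + ε))` of the about `4 X ^ 5` curves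
  `y ^ 2 = x ^ 3 + r x + s`, `|r| ≤ X ^ 2`, `|s| ≤ X ^ 3`, the curve is singular or has complex
  multiplication or its mod `p` representation is surjective for every prime `p > 37`.

Inputs (theorems, used as hypotheses): Masser-Wüstholz; uniform point counts of Bombieri-Pila type on
the modular curves `X_ns^+(p)`; Faltings together with the theorem of Mazur, Bilu-Parent,
Bilu-Parent-Rebolledo, Balakrishnan-Dogra-Müller-Tuitman-Vonk.
-/

set_option autoImplicit false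

namespace Pool.Agent.Results.MP_cda23d_nt.SparseJInvariants

open Height Nfed6cde5 Pool.Agent.TH125.Tor

/-- `j` is not one of the thirteen `j`-invariants with complex multiplication, `p > 37`, and some
elliptic curve over `ℚ` with `j`-invariant `j` has a mod `p` representation which is not
surjective. -/
def Exceptional (j : ℚ) (p : ℕ) : Prop :=
  j ∉ cmJInvariants ∧ 37 < p ∧
    ∃ (E : WeierstrassCurve ℚ) (_ : E.IsElliptic), E.j = j ∧ ¬ HasFullTorsionAction E p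

/-- **Theorem of Masser and Wüstholz**: if `j` is exceptional for the prime `p`, then `p` is at most
a power of the logarithm of the height of `j`. -/
def LogarithmicBound : Prop :=
  ∃ c : ℕ, ∀ (j : ℚ) (p : ℕ), p.Prime → Exceptional j p →
    (p : ℝ) ≤ c * (1 + Real.log (mulHeight₁ j)) ^ c

/-- **Uniform point counts on modular curves**: for a prime `p ≥ p₀(ε)` at most `C p ^ C T ^ ε`
rational numbers of height at most `T` are exceptional for `p`. -/
def UniformCount : Prop :=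
  ∀ ε : ℝ, 0 < ε → ∃ p₀ C : ℕ, ∀ p : ℕ, p.Prime → p₀ ≤ p → ∀ T : ℝ, 1 ≤ T →
    ({j : ℚ | mulHeight₁ j ≤ T ∧ Exceptional j p}.ncard : ℝ) ≤ C * (p : ℝ) ^ C * T ^ ε

/-- **Theorem of Faltings**: for each prime `p > 37` finitely many `j` are exceptional. -/
def FinitelyManyForEachPrime : Prop :=
  ∀ p : ℕ, p.Prime → 37 < p → {j : ℚ | Exceptional j p}.Finite

/-- The curve `y ^ 2 = x ^ 3 + r x + s`. -/
def curve (x : ℤ × ℤ) : WeierstrassCurve ℚ := ⟨0, 0, 0, x.1, x.2⟩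

/-- The curve `y ^ 2 = x ^ 3 + r x + s` is an elliptic curve without complex multiplication whose mod
`p` representation is not surjective for some prime `p > 37`. -/
def ExceptionalCurve (x : ℤ × ℤ) : Prop :=
  ∃ _ : (curve x).IsElliptic, (curve x).j ∉ cmJInvariants ∧
    ∃ p : ℕ, p.Prime ∧ 37 < p ∧ ¬ HasFullTorsionAction (curve x) p

theorem j_curve (x : ℤ × ℤ) [(curve x).IsElliptic] :
    (curve x).j = ((6912 * x.1 ^ 3 : ℤ) : ℚ) / ((4 * x.1 ^ 3 + 27 * x.2 ^ 2 : ℤ) : ℚ) := by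
  have : (curve x).IsShortNF := ⟨rfl, rfl, rfl⟩
  rw [WeierstrassCurve.j_of_isShortNF]
  simp only [curve]
  push_cast
  ring

theorem disc_ne (x : ℤ × ℤ) [h : (curve x).IsElliptic] : 4 * x.1 ^ 3 + 27 * x.2 ^ 2 ≠ 0 := by
  have : (curve x).IsShortNF := ⟨rfl, rfl, rfl⟩
  have h1 : (curve x).Δ ≠ 0 := (curve x).isUnit_Δ.ne_zero
  rw [WeierstrassCurve.Δ_of_isShortNF] at h1
  intro h2
  apply h1
  simp only [curve]
  have h3 : ((4 * x.1 ^ 3 + 27 * x.2 ^ 2 : ℤ) : ℚ) = 0 := by rw [h2]; simp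
  push_cast at h3
  linear_combination (-16 : ℚ) * h3

/-- **Main result.** -/
theorem result (h₁ : LogarithmicBound) (h₂ : UniformCount) (h₃ : FinitelyManyForEachPrime) :
    (∀ ε : ℝ, 0 < ε → ∃ C : ℝ, ∀ T : ℝ, 1 ≤ T →
      ({j : ℚ | mulHeight₁ j ≤ T ∧ ∃ p : ℕ, p.Prime ∧ Exceptional j p}.ncard : ℝ) ≤ C * T ^ ε) ∧
    ∀ ε : ℝ, 0 < ε → ∃ C : ℝ, ∀ X : ℕ, 1 ≤ X →
      ({x : ℤ × ℤ | |x.1| ≤ (X : ℤ) ^ 2 ∧ |x.2| ≤ (X : ℤ) ^ 3 ∧ ExceptionalCurve x}.ncard : ℝ) ≤
        C * (X : ℝ) ^ (1 + ε) := by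
  classical
  have hA : ∀ ε : ℝ, 0 < ε → ∃ C : ℝ, ∀ T : ℝ, 1 ≤ T →
      ({j : ℚ | mulHeight₁ j ≤ T ∧ ∃ p : ℕ, p.Prime ∧ Exceptional j p}.ncard : ℝ) ≤
        C * T ^ ε := by
    intro ε hε
    obtain ⟨C, hC⟩ := union_bound (fun j : ℚ => mulHeight₁ j) one_le_mulHeight₁
      (fun T => NumberField.finite_setOfPred_mulHeight₁_le ℚ T) Exceptional 38 h₁ h₂
      (fun p hp h => h₃ p hp (by omega)) ε hε
    refine ⟨C, fun T hT => ?_⟩
    refine le_trans (le_of_eq ?_) (hC T hT)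
    congr 2
    ext j
    constructor
    · rintro ⟨h4, p, h5, h6⟩
      exact ⟨h4, p, h5, by have := h6.2.1; omega, h6⟩
    · rintro ⟨h4, p, h5, -, h6⟩
      exact ⟨h4, p, h5, h6⟩
  refine ⟨hA, fun ε hε => ?_⟩
  obtain ⟨C, hC⟩ := hA (ε / 6) (by positivity)
  have hC0 : 0 ≤ C := by
    have := hC 1 le_rfl
    rw [Real.one_rpow, mul_one] at this
    exact le_trans (by positivity) this
  refine ⟨2 * C * 6912 ^ (ε / 6), fun X hX => ?_⟩
  have hX' : (1 : ℝ) ≤ X := by exact_mod_cast hX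
  set S := {x : ℤ × ℤ | |x.1| ≤ (X : ℤ) ^ 2 ∧ |x.2| ≤ (X : ℤ) ^ 3 ∧ ExceptionalCurve x} with hS
  have hSfin : S.Finite := by
    refine ((Set.finite_Icc (-(X : ℤ) ^ 2) (X ^ 2)).prod
      (Set.finite_Icc (-(X : ℤ) ^ 3) (X ^ 3))).subset fun x hx => ?_
    exact Set.mk_mem_prod (Set.mem_Icc.2 (abs_le.1 hx.1)) (Set.mem_Icc.2 (abs_le.1 hx.2.1))
  set J := {j : ℚ | mulHeight₁ j ≤ 6912 * (X : ℝ) ^ 6 ∧ ∃ p : ℕ, p.Prime ∧ Exceptional j p} with hJ
  have hJfin : J.Finite :=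
    (NumberField.finite_setOfPred_mulHeight₁_le ℚ (6912 * (X : ℝ) ^ 6)).subset fun j hj => hj.1
  set f : ℤ × ℤ → ℚ := fun x =>
    ((6912 * x.1 ^ 3 : ℤ) : ℚ) / ((4 * x.1 ^ 3 + 27 * x.2 ^ 2 : ℤ) : ℚ) with hf
  have hne : ∀ x ∈ S, x.1 ≠ 0 ∧ x.2 ≠ 0 ∧ 4 * x.1 ^ 3 + 27 * x.2 ^ 2 ≠ 0 := by
    rintro x ⟨-, -, hE, hj, -⟩
    have hd := disc_ne x
    rw [j_curve] at hj
    refine ⟨?_, ?_, hd⟩
    · intro h0
      apply hj
      simp [h0, cmJInvariants]
    · intro h0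
      apply hj
      have h1 : x.1 ≠ 0 := by
        intro h1
        rw [h0, h1] at hd
        exact hd (by norm_num)
      have h1' : (x.1 : ℚ) ≠ 0 := by exact_mod_cast h1
      have h2 : ((6912 * x.1 ^ 3 : ℤ) : ℚ) / ((4 * x.1 ^ 3 + 27 * x.2 ^ 2 : ℤ) : ℚ) = 1728 := by
        rw [h0]
        push_cast
        field_simp
        ring
      rw [h2]
      simp [cmJInvariants]
  have himage : ∀ x ∈ S, f x ∈ J := by
    rintro x ⟨hr, hs, hE, hj, p, hp, h37, hns⟩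
    have hd := disc_ne x
    refine ⟨?_, p, hp, ?_⟩
    · rw [Rat.mulHeight₁_eq_max]
      have h1 : |6912 * x.1 ^ 3| ≤ ((6912 * X ^ 6 : ℕ) : ℤ) := by
        have h2 : |x.1| ^ 3 ≤ ((X : ℤ) ^ 2) ^ 3 := pow_le_pow_left₀ (abs_nonneg _) hr 3
        rw [abs_mul, abs_pow, abs_of_nonneg (by norm_num : (0 : ℤ) ≤ 6912)]
        push_cast
        nlinarith
      have h2 : |4 * x.1 ^ 3 + 27 * x.2 ^ 2| ≤ ((6912 * X ^ 6 : ℕ) : ℤ) := by
        have h3 : |x.1| ^ 3 ≤ ((X : ℤ) ^ 2) ^ 3 := pow_le_pow_left₀ (abs_nonneg _) hr 3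
        have h4 : |x.2| ^ 2 ≤ ((X : ℤ) ^ 3) ^ 2 := pow_le_pow_left₀ (abs_nonneg _) hs 2
        have h5 : |4 * x.1 ^ 3 + 27 * x.2 ^ 2| ≤ 4 * |x.1| ^ 3 + 27 * |x.2| ^ 2 := by
          refine (abs_add_le _ _).trans (le_of_eq ?_)
          rw [abs_mul, abs_mul, abs_pow, abs_pow]
          norm_num
        push_cast
        have h6 : (0 : ℤ) ≤ (X : ℤ) ^ 6 := by positivity
        nlinarith
      have h3 := ht_div_le hd h1 h2
      have h4 : ht (f x) ≤ 6912 * X ^ 6 := h3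
      exact_mod_cast h4
    · have hfx : (curve x).j = f x := j_curve x
      exact ⟨hfx ▸ hj, h37, curve x, hE, hfx, hns⟩
  have hfib : ∀ a ∈ hSfin.toFinset.image f,
      (hSfin.toFinset.filter fun x => f x = a).card ≤ 2 * X := by
    intro a _
    refine card_pairs_le _ ?_ ?_
    · intro x hx
      have hxS := (Set.Finite.mem_toFinset hSfin).1 (Finset.mem_filter.1 hx).1
      exact ⟨(hne x hxS).1, (hne x hxS).2.1, hxS.1⟩
    · intro x hx y hy
      have hxS := (Set.Finite.mem_toFinset hSfin).1 (Finset.mem_filter.1 hx).1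
      have hyS := (Set.Finite.mem_toFinset hSfin).1 (Finset.mem_filter.1 hy).1
      have h1 : f x = f y := (Finset.mem_filter.1 hx).2.trans (Finset.mem_filter.1 hy).2.symm
      have hdx : ((4 * x.1 ^ 3 + 27 * x.2 ^ 2 : ℤ) : ℚ) ≠ 0 := by
        exact_mod_cast (hne x hxS).2.2
      have hdy : ((4 * y.1 ^ 3 + 27 * y.2 ^ 2 : ℤ) : ℚ) ≠ 0 := by
        exact_mod_cast (hne y hyS).2.2
      simp only [hf] at h1
      rw [div_eq_div_iff hdx hdy] at h1
      have h2 : 6912 * x.1 ^ 3 * (4 * y.1 ^ 3 + 27 * y.2 ^ 2) =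
          6912 * y.1 ^ 3 * (4 * x.1 ^ 3 + 27 * x.2 ^ 2) := by exact_mod_cast h1
      nlinarith
  have hcard := Finset.card_le_mul_card_image hSfin.toFinset (2 * X) hfib
  have hsub : hSfin.toFinset.image f ⊆ hJfin.toFinset := by
    intro a ha
    obtain ⟨x, hx, rfl⟩ := Finset.mem_image.1 ha
    exact (Set.Finite.mem_toFinset hJfin).2 (himage x ((Set.Finite.mem_toFinset hSfin).1 hx))
  have h4 : S.ncard ≤ 2 * X * J.ncard := by
    rw [Set.ncard_eq_toFinset_card S hSfin, Set.ncard_eq_toFinset_card J hJfin]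
    exact hcard.trans (Nat.mul_le_mul_left _ (Finset.card_le_card hsub))
  have hT1 : (1 : ℝ) ≤ 6912 * (X : ℝ) ^ 6 := by
    have : (1 : ℝ) ≤ (X : ℝ) ^ 6 := one_le_pow₀ hX'
    linarith
  have h5 := hC (6912 * (X : ℝ) ^ 6) hT1
  have h6 : (S.ncard : ℝ) ≤ 2 * X * J.ncard := by exact_mod_cast h4
  calc (S.ncard : ℝ) ≤ 2 * X * J.ncard := h6
    _ ≤ 2 * X * (C * (6912 * (X : ℝ) ^ 6) ^ (ε / 6)) :=
        mul_le_mul_of_nonneg_left h5 (by positivity)
    _ = 2 * C * 6912 ^ (ε / 6) * (X : ℝ) ^ (1 + ε) := by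
        rw [Real.mul_rpow (by norm_num) (by positivity), ← Real.rpow_natCast (X : ℝ) 6,
          ← Real.rpow_mul (by positivity), Real.rpow_add (by positivity), Real.rpow_one]
        have : ((6 : ℕ) : ℝ) * (ε / 6) = ε := by push_cast; ring
        rw [this]
        ring

end Pool.Agent.Results.MP_cda23d_nt.SparseJInvariants
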