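import Pool.Agent.TH125.Ser.Final
import Pool.Prelude.Def_F_7deccdcd

/-!
# Serre's uniformity question in one-parameter families

Let `j(t) = f(t) / g(t)` be a rational function with rational coefficients and at least one finite
pole. For every `ε > 0`, for all but `O(T ^ ε)` integers `u`, `|u| ≤ T`, prime to a given
denominator `v`, `|v| ≤ T` (for instance `v = 1`), the mod `p` representation of every elliptic curve
over `ℚ` without complex multiplication with `j`-invariant `j(u / v)` is surjective for every prime
`p > 37`. The constant does not depend on `v`.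

The proof uses: for `p > 37` the image of a non-surjective representation is contained in the
normaliser of a non-split Cartan subgroup and has no element of order `p` (Mazur, Bilu-Parent,
Bilu-Parent-Rebolledo, Balakrishnan and others); Tate curves, so that `p` divides the valuations of
the denominator of `j`; for each single `p` there are only finitely many exceptional `j`
(Faltings). So the denominator is, up to primes in a finite set, a `p`-th power with large `p`, and
there are few such numbers.
-/

set_option autoImplicit false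

namespace Pool.Agent.Results.MP_cda23d_nt.ThinExceptionsInFamilies

open Polynomial Nfed6cde5 Pool.Agent.TH125.Ser

open scoped Classical in
/-- The automorphism `σ` acts trivially on `E[p]`. -/
def FixesTorsion (E : WeierstrassCurve ℚ) (p : ℕ)
    (σ : AlgebraicClosure ℚ ≃ₐ[ℚ] AlgebraicClosure ℚ) : Prop :=
  ∀ P : (E.baseChange (AlgebraicClosure ℚ)).toAffine.Point, (p : ℤ) • P = 0 →
    WeierstrassCurve.Affine.Point.map (W' := E) σ.toAlgHom P = P

/-- `E` has no complex multiplication and its mod `p` representation is not surjective, `p` a prime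
number greater than `37`. -/
def IsExceptional (E : WeierstrassCurve ℚ) [E.IsElliptic] (p : ℕ) : Prop :=
  E.j ∉ cmJInvariants ∧ p.Prime ∧ 37 < p ∧ ¬ HasFullTorsionAction E p

/-- **Theorem of Mazur, Bilu-Parent, Bilu-Parent-Rebolledo, Balakrishnan-Dogra-Müller-Tuitman-Vonk**:
the image is contained in the normaliser of a non-split Cartan subgroup; what is used is that it
contains no element of order `p`. -/
def NoElementOfOrderP : Prop :=
  ∀ (E : WeierstrassCurve ℚ) [E.IsElliptic] (p : ℕ), IsExceptional E p →
    ∀ σ : AlgebraicClosure ℚ ≃ₐ[ℚ] AlgebraicClosure ℚ, FixesTorsion E p (σ ^ p) →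
      FixesTorsion E p σ

/-- **Tate curves**: if the valuation of the `j`-invariant at a prime `l` is negative and prime to
`p`, the image contains an element of order `p`. -/
def TateCurves : Prop :=
  ∀ (E : WeierstrassCurve ℚ) [E.IsElliptic] (p l : ℕ), p.Prime → l.Prime →
    padicValRat l E.j < 0 → ¬ (p : ℤ) ∣ padicValRat l E.j →
      ∃ σ : AlgebraicClosure ℚ ≃ₐ[ℚ] AlgebraicClosure ℚ, FixesTorsion E p (σ ^ p) ∧
        ¬ FixesTorsion E p σ

/-- **Theorem of Faltings** for the modular curves attached to the normalisers of the non-split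
Cartan subgroups: for each `p` there are finitely many exceptional `j`-invariants. -/
def FinitelyManyForEachPrime : Prop :=
  ∀ p : ℕ, {j : ℚ | ∃ (E : WeierstrassCurve ℚ) (_ : E.IsElliptic), E.j = j ∧
    IsExceptional E p}.Finite

/-- The pair `(u, v)` is an exceptional parameter: `u`, `v` are coprime, `u / v` is not a pole, and
some curve with `j`-invariant `f(u / v) / g(u / v)` is exceptional for some prime `p > 37`. -/
def ExceptionalParameter (f g : ℤ[X]) (d : ℕ) (u v : ℤ) : Prop :=
  IsCoprime u v ∧ form d g u v ≠ 0 ∧ ∃ (E : WeierstrassCurve ℚ) (_ : E.IsElliptic) (p : ℕ),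
    E.j = (form d f u v : ℚ) / form d g u v ∧ IsExceptional E p

/-- **Main result.** -/
theorem result (h₁ : NoElementOfOrderP) (h₂ : TateCurves) (h₃ : FinitelyManyForEachPrime)
    (f g : ℤ[X]) (d : ℕ) (hf : f.natDegree ≤ d) (hg : g.natDegree ≤ d)
    (hcop : IsCoprime (f.map (Int.castRingHom ℚ)) (g.map (Int.castRingHom ℚ)))
    (hd : f.coeff d ≠ 0 ∨ g.coeff d ≠ 0) (hpole : 0 < g.natDegree) (ε : ℝ) (hε : 0 < ε) :
    ∃ C : ℝ, ∀ T : ℕ, 1 ≤ T → ∀ v : ℤ, |v| ≤ T →
      ({u : ℤ | |u| ≤ T ∧ ExceptionalParameter f g d u v}.ncard : ℝ) ≤ C * (T : ℝ) ^ ε := by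
  obtain ⟨C, hC⟩ := main
    (fun j p => ∃ (E : WeierstrassCurve ℚ) (_ : E.IsElliptic), E.j = j ∧ IsExceptional E p)
    (by
      rintro j p - - ⟨E, hE0, rfl, hE⟩ l hl hneg
      by_contra hdvd
      obtain ⟨σ, h3, h4⟩ := h₂ E p l hE.2.1 hl hneg hdvd
      exact h4 (h₁ E p hE σ h3))
    (fun p _ _ => h₃ p) hf hg hcop hd hpole hε
  refine ⟨C, fun T hT v hv => ?_⟩
  have hfin : {u : ℤ | |u| ≤ T ∧ ExceptionalParameter f g d u v}.Finite := by
    refine (Set.finite_Icc (-(T : ℤ)) T).subset fun u hu => ?_
    exact Set.mem_Icc.2 (abs_le.1 hu.1)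
  rw [Set.ncard_eq_toFinset_card _ hfin]
  refine hC T hT v hv _ fun u hu => ?_
  rw [Set.Finite.mem_toFinset] at hu
  obtain ⟨h5, h6, h7, E, hE0, p, h8, h9⟩ := hu
  exact ⟨h5, h6, h7, p, h9.2.1, h9.2.2.1, E, hE0, h8, h9⟩

end Pool.Agent.Results.MP_cda23d_nt.ThinExceptionsInFamilies
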